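import Mathlib

/-!
# Signs of the coefficients of the square of the Thue-Morse generating function

`t_m(n)` is the coefficient of `x^n` in `∏_k (1 - x^(2^k))^m`.  We show that
`t_2(256 n + 16) + t_2(256 n + 88) + t_2(256 n + 193) = 0` for all `n`, so that the exceptional
sets for `m = 2` have positive lower density.
-/

open Finset Polynomial

namespace Pool.Agent.Results.MP_58bd73_nt.PositiveDensity

/-- The partial product `∏_(k < K) (1 - x^(2^k))^m`. -/
noncomputable def P (m K : ℕ) : ℤ[X] := ∏ k ∈ range K, (1 - X ^ (2 ^ k)) ^ m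

/-- `t_m(n)`: the coefficient of `x^n` in `∏_(k ≥ 0) (1 - x^(2^k))^m`. The factors with `k > n` do
not influence this coefficient (see `coeff_P`), so it is read off from the finite product. -/
noncomputable def t (m n : ℕ) : ℤ := (P m (n + 1)).coeff n

/-- The exceptional set `A_(m,j) = {n : sgn t_m(3n+j) ≠ (-1)^j}`. -/
def A (m j : ℕ) : Set ℕ := {n | Int.sign (t m (3 * n + j)) ≠ (-1) ^ j}

/-- asymptotic density zero -/
def DensityZero (S : Set ℕ) : Prop :=
  Filter.Tendsto (fun N : ℕ => (({n | n < N ∧ n ∈ S} : Set ℕ).ncard : ℝ) / N) Filter.atTop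
    (nhds 0)

lemma pow_sub_one_dvd (m : ℕ) (Y : ℤ[X]) : Y ∣ (1 - Y) ^ m - 1 := by
  have h := sub_dvd_pow_sub_pow (1 - Y) 1 m
  rw [one_pow] at h
  have h2 : (1 - Y) - 1 = -Y := by ring
  rw [h2, neg_dvd] at h
  exact h

/-- stabilisation of the coefficients -/
lemma coeff_P_succ (m n K : ℕ) (h : n < 2 ^ K) : (P m (K + 1)).coeff n = (P m K).coeff n := by
  unfold P
  rw [Finset.prod_range_succ]
  obtain ⟨R, hR⟩ := pow_sub_one_dvd m ((X : ℤ[X]) ^ (2 ^ K))
  have h2 : (1 - (X : ℤ[X]) ^ (2 ^ K)) ^ m = 1 + X ^ (2 ^ K) * R := by rw [← hR]; ring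
  rw [h2, mul_add, mul_one, coeff_add, mul_left_comm, coeff_X_pow_mul', if_neg (by omega),
    add_zero]

lemma coeff_P (m n K : ℕ) (h : n < K) : (P m K).coeff n = t m n := by
  induction K with
  | zero => omega
  | succ K ih =>
    rcases Nat.lt_or_ge n K with h1 | h1
    · rw [coeff_P_succ m n K (h1.trans Nat.lt_two_pow_self), ih h1]
    · have : K = n := by omega
      subst this; rfl

lemma P_two_succ (K : ℕ) : P 2 (K + 1) = (1 - X) ^ 2 * Polynomial.expand ℤ 2 (P 2 K) := by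
  unfold P
  rw [Finset.prod_range_succ', pow_zero, pow_one, map_prod, mul_comm]
  congr 1
  apply Finset.prod_congr rfl
  intro k _
  rw [map_pow, map_sub, map_one, map_pow, Polynomial.expand_X, ← pow_mul]
  congr 3
  ring

lemma expand_even (p : ℤ[X]) (n : ℕ) : (Polynomial.expand ℤ 2 p).coeff (2 * n) = p.coeff n := by
  rw [mul_comm, Polynomial.coeff_expand_mul (by norm_num)]

lemma expand_odd (p : ℤ[X]) (n : ℕ) : (Polynomial.expand ℤ 2 p).coeff (2 * n + 1) = 0 := by
  rw [Polynomial.coeff_expand (by norm_num), if_neg (by omega)]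

lemma sq_expand : (1 - X : ℤ[X]) ^ 2 = 1 - C 2 * X + X ^ 2 := by
  rw [show (C (2 : ℤ)) = 2 from rfl]; ring

lemma t_odd (n : ℕ) : t 2 (2 * n + 1) = -2 * t 2 n := by
  rw [← coeff_P 2 (2 * n + 1) (2 * n + 1 + 1) (by omega), P_two_succ, sq_expand,
    ← coeff_P 2 n (2 * n + 1) (by omega)]
  have e : (1 - C 2 * X + X ^ 2 : ℤ[X]) * Polynomial.expand ℤ 2 (P 2 (2 * n + 1)) =
      Polynomial.expand ℤ 2 (P 2 (2 * n + 1)) - C 2 * (X * Polynomial.expand ℤ 2 (P 2 (2 * n + 1))) +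
        X ^ 2 * Polynomial.expand ℤ 2 (P 2 (2 * n + 1)) := by ring
  rw [e, coeff_add, coeff_sub, coeff_C_mul, coeff_X_mul, expand_odd, expand_even,
    coeff_X_pow_mul']
  rcases n with _ | n
  · simp
  · rw [if_pos (by omega), show 2 * (n + 1) + 1 - 2 = 2 * n + 1 by omega, expand_odd]
    ring

lemma t_even_succ (n : ℕ) : t 2 (2 * (n + 1)) = t 2 (n + 1) + t 2 n := by
  rw [← coeff_P 2 (2 * (n + 1)) (2 * (n + 1) + 1) (by omega), P_two_succ, sq_expand,
    ← coeff_P 2 n (2 * (n + 1)) (by omega), ← coeff_P 2 (n + 1) (2 * (n + 1)) (by omega)]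
  have e : (1 - C 2 * X + X ^ 2 : ℤ[X]) * Polynomial.expand ℤ 2 (P 2 (2 * (n + 1))) =
      Polynomial.expand ℤ 2 (P 2 (2 * (n + 1))) -
        C 2 * (X * Polynomial.expand ℤ 2 (P 2 (2 * (n + 1)))) +
        X ^ 2 * Polynomial.expand ℤ 2 (P 2 (2 * (n + 1))) := by ring
  rw [e, coeff_add, coeff_sub, coeff_C_mul, expand_even, coeff_X_pow_mul', if_pos (by omega),
    show 2 * (n + 1) - 2 = 2 * n by omega, expand_even, show 2 * (n + 1) = (2 * n + 1) + 1 by ring,
    coeff_X_mul, expand_odd]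
  ring

/-- the shifted sequence `s(n) = t_2(n-1)` with `s(0) = 0` -/
noncomputable def s : ℕ → ℤ
  | 0 => 0
  | n + 1 => t 2 n

lemma t_even (n : ℕ) : t 2 (2 * n) = t 2 n + s n := by
  rcases n with _ | n
  · show t 2 0 = t 2 0 + 0
    ring
  · exact t_even_succ n

lemma s_odd (n : ℕ) : s (2 * n + 1) = t 2 n + s n := t_even n

lemma s_even (n : ℕ) : s (2 * n) = -2 * s n := by
  rcases n with _ | n
  · show (0 : ℤ) = -2 * 0
    ring
  · show s ((2 * n + 1) + 1) = -2 * t 2 n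
    exact t_odd n

lemma t256_16 (n : ℕ) : t 2 (256 * n + 16) = (-7) * t 2 n + (19) * s n := by
  have t0 : t 2 n = (1) * t 2 n + (0) * s n := by ring
  have s0 : s n = (0) * t 2 n + (1) * s n := by ring
  have t1 : t 2 (2 * n + 0) = (1) * t 2 n + (1) * s n := by
    rw [show 2 * n + 0 = 2 * n by ring, t_even, t0, s0]; ring
  have s1 : s (2 * n + 0) = (0) * t 2 n + (-2) * s n := by
    rw [show 2 * n + 0 = 2 * n by ring, s_even, s0]; ring
  have t2 : t 2 (4 * n + 0) = (1) * t 2 n + (-1) * s n := by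
    rw [show 4 * n + 0 = 2 * (2 * n + 0) by ring, t_even, t1, s1]; ring
  have s2 : s (4 * n + 0) = (0) * t 2 n + (4) * s n := by
    rw [show 4 * n + 0 = 2 * (2 * n + 0) by ring, s_even, s1]; ring
  have t3 : t 2 (8 * n + 0) = (1) * t 2 n + (3) * s n := by
    rw [show 8 * n + 0 = 2 * (4 * n + 0) by ring, t_even, t2, s2]; ring
  have s3 : s (8 * n + 0) = (0) * t 2 n + (-8) * s n := by
    rw [show 8 * n + 0 = 2 * (4 * n + 0) by ring, s_even, s2]; ring
  have t4 : t 2 (16 * n + 1) = (-2) * t 2 n + (-6) * s n := by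
    rw [show 16 * n + 1 = 2 * (8 * n + 0) + 1 by ring, t_odd, t3]; ring
  have s4 : s (16 * n + 1) = (1) * t 2 n + (-5) * s n := by
    rw [show 16 * n + 1 = 2 * (8 * n + 0) + 1 by ring, s_odd, t3, s3]; ring
  have t5 : t 2 (32 * n + 2) = (-1) * t 2 n + (-11) * s n := by
    rw [show 32 * n + 2 = 2 * (16 * n + 1) by ring, t_even, t4, s4]; ring
  have s5 : s (32 * n + 2) = (-2) * t 2 n + (10) * s n := by
    rw [show 32 * n + 2 = 2 * (16 * n + 1) by ring, s_even, s4]; ring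
  have t6 : t 2 (64 * n + 4) = (-3) * t 2 n + (-1) * s n := by
    rw [show 64 * n + 4 = 2 * (32 * n + 2) by ring, t_even, t5, s5]; ring
  have s6 : s (64 * n + 4) = (4) * t 2 n + (-20) * s n := by
    rw [show 64 * n + 4 = 2 * (32 * n + 2) by ring, s_even, s5]; ring
  have t7 : t 2 (128 * n + 8) = (1) * t 2 n + (-21) * s n := by
    rw [show 128 * n + 8 = 2 * (64 * n + 4) by ring, t_even, t6, s6]; ring
  have s7 : s (128 * n + 8) = (-8) * t 2 n + (40) * s n := by
    rw [show 128 * n + 8 = 2 * (64 * n + 4) by ring, s_even, s6]; ring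
  have t8 : t 2 (256 * n + 16) = (-7) * t 2 n + (19) * s n := by
    rw [show 256 * n + 16 = 2 * (128 * n + 8) by ring, t_even, t7, s7]; ring
  have s8 : s (256 * n + 16) = (16) * t 2 n + (-80) * s n := by
    rw [show 256 * n + 16 = 2 * (128 * n + 8) by ring, s_even, s7]; ring
  exact t8

lemma t256_88 (n : ℕ) : t 2 (256 * n + 88) = (-7) * t 2 n + (3) * s n := by
  have t0 : t 2 n = (1) * t 2 n + (0) * s n := by ring
  have s0 : s n = (0) * t 2 n + (1) * s n := by ring
  have t1 : t 2 (2 * n + 0) = (1) * t 2 n + (1) * s n := by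
    rw [show 2 * n + 0 = 2 * n by ring, t_even, t0, s0]; ring
  have s1 : s (2 * n + 0) = (0) * t 2 n + (-2) * s n := by
    rw [show 2 * n + 0 = 2 * n by ring, s_even, s0]; ring
  have t2 : t 2 (4 * n + 1) = (-2) * t 2 n + (-2) * s n := by
    rw [show 4 * n + 1 = 2 * (2 * n + 0) + 1 by ring, t_odd, t1]; ring
  have s2 : s (4 * n + 1) = (1) * t 2 n + (-1) * s n := by
    rw [show 4 * n + 1 = 2 * (2 * n + 0) + 1 by ring, s_odd, t1, s1]; ring
  have t3 : t 2 (8 * n + 2) = (-1) * t 2 n + (-3) * s n := by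
    rw [show 8 * n + 2 = 2 * (4 * n + 1) by ring, t_even, t2, s2]; ring
  have s3 : s (8 * n + 2) = (-2) * t 2 n + (2) * s n := by
    rw [show 8 * n + 2 = 2 * (4 * n + 1) by ring, s_even, s2]; ring
  have t4 : t 2 (16 * n + 5) = (2) * t 2 n + (6) * s n := by
    rw [show 16 * n + 5 = 2 * (8 * n + 2) + 1 by ring, t_odd, t3]; ring
  have s4 : s (16 * n + 5) = (-3) * t 2 n + (-1) * s n := by
    rw [show 16 * n + 5 = 2 * (8 * n + 2) + 1 by ring, s_odd, t3, s3]; ring
  have t5 : t 2 (32 * n + 11) = (-4) * t 2 n + (-12) * s n := by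
    rw [show 32 * n + 11 = 2 * (16 * n + 5) + 1 by ring, t_odd, t4]; ring
  have s5 : s (32 * n + 11) = (-1) * t 2 n + (5) * s n := by
    rw [show 32 * n + 11 = 2 * (16 * n + 5) + 1 by ring, s_odd, t4, s4]; ring
  have t6 : t 2 (64 * n + 22) = (-5) * t 2 n + (-7) * s n := by
    rw [show 64 * n + 22 = 2 * (32 * n + 11) by ring, t_even, t5, s5]; ring
  have s6 : s (64 * n + 22) = (2) * t 2 n + (-10) * s n := by
    rw [show 64 * n + 22 = 2 * (32 * n + 11) by ring, s_even, s5]; ring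
  have t7 : t 2 (128 * n + 44) = (-3) * t 2 n + (-17) * s n := by
    rw [show 128 * n + 44 = 2 * (64 * n + 22) by ring, t_even, t6, s6]; ring
  have s7 : s (128 * n + 44) = (-4) * t 2 n + (20) * s n := by
    rw [show 128 * n + 44 = 2 * (64 * n + 22) by ring, s_even, s6]; ring
  have t8 : t 2 (256 * n + 88) = (-7) * t 2 n + (3) * s n := by
    rw [show 256 * n + 88 = 2 * (128 * n + 44) by ring, t_even, t7, s7]; ring
  have s8 : s (256 * n + 88) = (8) * t 2 n + (-40) * s n := by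
    rw [show 256 * n + 88 = 2 * (128 * n + 44) by ring, s_even, s7]; ring
  exact t8

lemma t256_193 (n : ℕ) : t 2 (256 * n + 193) = (14) * t 2 n + (-22) * s n := by
  have t0 : t 2 n = (1) * t 2 n + (0) * s n := by ring
  have s0 : s n = (0) * t 2 n + (1) * s n := by ring
  have t1 : t 2 (2 * n + 1) = (-2) * t 2 n + (0) * s n := by
    rw [show 2 * n + 1 = 2 * n + 1 by ring, t_odd, t0]; ring
  have s1 : s (2 * n + 1) = (1) * t 2 n + (1) * s n := by
    rw [show 2 * n + 1 = 2 * n + 1 by ring, s_odd, t0, s0]; ring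
  have t2 : t 2 (4 * n + 3) = (4) * t 2 n + (0) * s n := by
    rw [show 4 * n + 3 = 2 * (2 * n + 1) + 1 by ring, t_odd, t1]; ring
  have s2 : s (4 * n + 3) = (-1) * t 2 n + (1) * s n := by
    rw [show 4 * n + 3 = 2 * (2 * n + 1) + 1 by ring, s_odd, t1, s1]; ring
  have t3 : t 2 (8 * n + 6) = (3) * t 2 n + (1) * s n := by
    rw [show 8 * n + 6 = 2 * (4 * n + 3) by ring, t_even, t2, s2]; ring
  have s3 : s (8 * n + 6) = (2) * t 2 n + (-2) * s n := by
    rw [show 8 * n + 6 = 2 * (4 * n + 3) by ring, s_even, s2]; ring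
  have t4 : t 2 (16 * n + 12) = (5) * t 2 n + (-1) * s n := by
    rw [show 16 * n + 12 = 2 * (8 * n + 6) by ring, t_even, t3, s3]; ring
  have s4 : s (16 * n + 12) = (-4) * t 2 n + (4) * s n := by
    rw [show 16 * n + 12 = 2 * (8 * n + 6) by ring, s_even, s3]; ring
  have t5 : t 2 (32 * n + 24) = (1) * t 2 n + (3) * s n := by
    rw [show 32 * n + 24 = 2 * (16 * n + 12) by ring, t_even, t4, s4]; ring
  have s5 : s (32 * n + 24) = (8) * t 2 n + (-8) * s n := by
    rw [show 32 * n + 24 = 2 * (16 * n + 12) by ring, s_even, s4]; ring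
  have t6 : t 2 (64 * n + 48) = (9) * t 2 n + (-5) * s n := by
    rw [show 64 * n + 48 = 2 * (32 * n + 24) by ring, t_even, t5, s5]; ring
  have s6 : s (64 * n + 48) = (-16) * t 2 n + (16) * s n := by
    rw [show 64 * n + 48 = 2 * (32 * n + 24) by ring, s_even, s5]; ring
  have t7 : t 2 (128 * n + 96) = (-7) * t 2 n + (11) * s n := by
    rw [show 128 * n + 96 = 2 * (64 * n + 48) by ring, t_even, t6, s6]; ring
  have s7 : s (128 * n + 96) = (32) * t 2 n + (-32) * s n := by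
    rw [show 128 * n + 96 = 2 * (64 * n + 48) by ring, s_even, s6]; ring
  have t8 : t 2 (256 * n + 193) = (14) * t 2 n + (-22) * s n := by
    rw [show 256 * n + 193 = 2 * (128 * n + 96) + 1 by ring, t_odd, t7]; ring
  have s8 : s (256 * n + 193) = (25) * t 2 n + (-21) * s n := by
    rw [show 256 * n + 193 = 2 * (128 * n + 96) + 1 by ring, s_odd, t7, s7]; ring
  exact t8

/-- The linear relation. -/
lemma relation (n : ℕ) :
    t 2 (256 * n + 16) + t 2 (256 * n + 88) + t 2 (256 * n + 193) = 0 := by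
  rw [t256_16, t256_88, t256_193]; ring

/-- every block of 256 indices contains an element of `A_(2,0)` -/
lemma block0 (q : ℕ) : ∃ i, 256 * q ≤ i ∧ i < 256 * (q + 1) ∧ i ∈ A 2 0 := by
  have h := relation (3 * q + 2)
  have key : ∀ j c : ℕ, 3 * (256 * q + c) = 256 * (3 * q + 2) + j → c < 256 →
      t 2 (256 * (3 * q + 2) + j) ≤ 0 → ∃ i, 256 * q ≤ i ∧ i < 256 * (q + 1) ∧ i ∈ A 2 0 := by
    intro j c h1 h2 h3
    refine ⟨256 * q + c, by omega, by omega, ?_⟩
    show Int.sign (t 2 (3 * (256 * q + c) + 0)) ≠ (-1) ^ 0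
    rw [add_zero, h1, pow_zero]
    intro h4
    have := Int.sign_eq_one_iff_pos.1 h4
    omega
  rcases le_or_gt (t 2 (256 * (3 * q + 2) + 16)) 0 with h1 | h1
  · exact key 16 176 (by ring) (by norm_num) h1
  · rcases le_or_gt (t 2 (256 * (3 * q + 2) + 88)) 0 with h2 | h2
    · exact key 88 200 (by ring) (by norm_num) h2
    · exact key 193 235 (by ring) (by norm_num) (by omega)

/-- every block of 256 indices contains an element of `A_(2,1)` -/
lemma block1 (q : ℕ) : ∃ i, 256 * q ≤ i ∧ i < 256 * (q + 1) ∧ i ∈ A 2 1 := by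
  have h := relation (3 * q)
  have key : ∀ j c : ℕ, 3 * (256 * q + c) + 1 = 256 * (3 * q) + j → c < 256 →
      0 ≤ t 2 (256 * (3 * q) + j) → ∃ i, 256 * q ≤ i ∧ i < 256 * (q + 1) ∧ i ∈ A 2 1 := by
    intro j c h1 h2 h3
    refine ⟨256 * q + c, by omega, by omega, ?_⟩
    show Int.sign (t 2 (3 * (256 * q + c) + 1)) ≠ (-1) ^ 1
    rw [h1, pow_one]
    intro h4
    have := Int.sign_eq_neg_one_iff_neg.1 h4
    omega
  rcases le_or_gt 0 (t 2 (256 * (3 * q) + 16)) with h1 | h1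
  · exact key 16 5 (by ring) (by norm_num) h1
  · rcases le_or_gt 0 (t 2 (256 * (3 * q) + 88)) with h2 | h2
    · exact key 88 29 (by ring) (by norm_num) h2
    · exact key 193 64 (by ring) (by norm_num) (by omega)

lemma count_ge (S : Set ℕ) (h : ∀ q, ∃ i, 256 * q ≤ i ∧ i < 256 * (q + 1) ∧ i ∈ S) (M : ℕ) :
    M ≤ ({n | n < 256 * M ∧ n ∈ S} : Set ℕ).ncard := by
  have hfin : ∀ N, ({n | n < N ∧ n ∈ S} : Set ℕ).Finite := fun N =>
    (Set.finite_lt_nat N).subset (fun n hn => hn.1)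
  induction M with
  | zero => exact Nat.zero_le _
  | succ M ih =>
    obtain ⟨i, h1, h2, h3⟩ := h M
    have hni : i ∉ ({n | n < 256 * M ∧ n ∈ S} : Set ℕ) := fun hh => by
      have := hh.1
      omega
    have h4 : (insert i {n | n < 256 * M ∧ n ∈ S} : Set ℕ).ncard =
        ({n | n < 256 * M ∧ n ∈ S} : Set ℕ).ncard + 1 :=
      Set.ncard_insert_of_notMem hni (hfin _)
    have h5 : (insert i {n | n < 256 * M ∧ n ∈ S} : Set ℕ) ⊆ {n | n < 256 * (M + 1) ∧ n ∈ S} := by
      intro n hn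
      rcases hn with rfl | hn
      · exact ⟨h2, h3⟩
      · exact ⟨by have := hn.1; omega, hn.2⟩
    have h6 := Set.ncard_le_ncard h5 (hfin _)
    omega

lemma not_densityZero (S : Set ℕ) (h : ∀ q, ∃ i, 256 * q ≤ i ∧ i < 256 * (q + 1) ∧ i ∈ S) :
    ¬ DensityZero S := by
  intro hd
  unfold DensityZero at hd
  rw [Metric.tendsto_atTop] at hd
  obtain ⟨N, hN⟩ := hd (1 / 256) (by norm_num)
  have h1 := hN (256 * (N + 1)) (by omega)
  have h2 := count_ge S h (N + 1)
  rw [Real.dist_eq, sub_zero, abs_of_nonneg (by positivity)] at h1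
  have h3 : ((N + 1 : ℕ) : ℝ) ≤ (({n | n < 256 * (N + 1) ∧ n ∈ S} : Set ℕ).ncard : ℝ) := by
    exact_mod_cast h2
  have h4 : (0 : ℝ) < ((256 * (N + 1) : ℕ) : ℝ) := by positivity
  rw [div_lt_iff₀ h4] at h1
  push_cast at h1 h3
  linarith

/-- **Main theorem.** For `m = 2` and `j = 0, 1`, among any 256 consecutive indices
`256 q ≤ i < 256 (q+1)` there is an element of the exceptional set `A_(2,j)`; in particular neither
set has asymptotic density `0`. -/
theorem result :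
    (∀ j : ℕ, j ≤ 1 → ∀ q : ℕ, ∃ i, 256 * q ≤ i ∧ i < 256 * (q + 1) ∧ i ∈ A 2 j) ∧
      (∀ j : ℕ, j ≤ 1 → ¬ DensityZero (A 2 j)) ∧
      ¬ ∀ m : ℕ, 2 ≤ m → ∀ j : ℕ, j ≤ 1 → (A m j).Infinite ∧ DensityZero (A m j) := by
  have hb : ∀ j : ℕ, j ≤ 1 → ∀ q : ℕ, ∃ i, 256 * q ≤ i ∧ i < 256 * (q + 1) ∧ i ∈ A 2 j := by
    intro j hj
    interval_cases j
    · exact block0
    · exact block1
  refine ⟨hb, fun j hj => not_densityZero _ (hb j hj), fun h => ?_⟩
  exact not_densityZero _ (hb 0 (by norm_num)) (h 2 (le_refl 2) 0 (by norm_num)).2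

end Pool.Agent.Results.MP_58bd73_nt.PositiveDensity
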